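import Pool.Agent.KS6_45.WC.Slow
import Pool.Agent.KS6_45.WC.Expo

set_option autoImplicit false

/-!
# Polynomial expansion, strong and weak colouring numbers: the sharp comparison

The definitions (`Monotone`, `PolyExpansion`, `PolyCol`, `PolyWcol`, `UniformPolyCol`, `col`,
`wcol`) are those of the library module `Pool.Graph.R_seed8.TH492.ColDefs`.
-/

namespace Pool.Agent.Results.MP_366dac_co.SharpGrowth

open Pool.Agent.TH492.Col
open Pool.Agent.KS6_45.WC

/-- a class with `2 ^ r ≤ wcol r` for some member, for every `r`, does not satisfy condition 3. -/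
theorem not_poly_of_pow {C : (n : ℕ) → SimpleGraph (Fin n) → Prop}
    (h : ∀ r : ℕ, ∃ (n : ℕ) (G : SimpleGraph (Fin n)), C n G ∧ 2 ^ r ≤ wcol r G) :
    ¬ PolyWcol C := by
  rintro ⟨c, K, hc⟩
  obtain ⟨a, k, hak⟩ := rpow_bound c K
  have h3 : Filter.Tendsto (fun s : ℕ => (s : ℝ) ^ k / (2 : ℝ) ^ s) Filter.atTop
      (nhds 0) := tendsto_pow_const_div_const_pow_of_one_lt k (by norm_num)
  have hA : (0 : ℝ) < (a : ℝ) + 1 := by positivity
  have h4 := (h3.eventually (gt_mem_nhds (show (0 : ℝ) < 1 / ((a : ℝ) + 1) by positivity))).and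
    (Filter.eventually_ge_atTop 1)
  obtain ⟨s, hs1, hs2⟩ := h4.exists
  obtain ⟨n, G, hG, hw⟩ := h s
  have h5 := (hc s n G hs2 hG).trans (hak s hs2)
  have h6 : ((2 ^ s : ℕ) : ℝ) ≤ (wcol s G : ℝ) := by exact_mod_cast hw
  push_cast at h6
  rw [div_lt_div_iff₀ (by positivity) hA, one_mul] at hs1
  have h7 : (0 : ℝ) ≤ (s : ℝ) ^ k := by positivity
  nlinarith

/-- **Sharp comparison of expansion, strong and weak colouring numbers.**

1. For every class of finite graphs, polynomial expansion (condition 1), polynomially bounded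
   strong colouring numbers (condition 2), and polynomially bounded strong reachability in ONE
   order for all radii at once are equivalent.
2. Every class with polynomial expansion has at most exponential weak colouring numbers: there is
   `K` with `wcol r G ≤ K ^ r` for all `r` and all members `G`.
3. This is attained by classes with linear strong colouring numbers, with any base: for every
   `d ≥ 2` there is a monotone class with polynomial expansion, with `col r G ≤ (d - 1) r + 2` for
   all `r ≥ 1` and all members, such that for every `r` some member has `wcol r G ≥ d ^ r`. In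
   particular conditions 1 and 2 hold and condition 3 fails for this class.
4. For nondecreasing `φ` with `φ 1 ≥ 3`, the bound `col r G ≤ φ r` (for all `r ≥ 1` and all members
   of a monotone class) implies condition 3 if and only if `φ` is bounded. -/
theorem result :
    (∀ C : (n : ℕ) → SimpleGraph (Fin n) → Prop, Monotone C →
      ((PolyExpansion C ↔ PolyCol C) ∧ (PolyExpansion C ↔ UniformPolyCol C))) ∧
    (∀ C : (n : ℕ) → SimpleGraph (Fin n) → Prop, Monotone C → PolyExpansion C →
      ∃ K : ℕ, ∀ (r n : ℕ) (G : SimpleGraph (Fin n)), C n G → wcol r G ≤ K ^ r) ∧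
    (∀ d : ℕ, 2 ≤ d → ∃ C : (n : ℕ) → SimpleGraph (Fin n) → Prop,
      Monotone C ∧ PolyExpansion C ∧ PolyCol C ∧ ¬ PolyWcol C ∧
      (∀ (r n : ℕ) (G : SimpleGraph (Fin n)), 1 ≤ r → C n G → col r G ≤ (d - 1) * r + 2) ∧
      (∀ r : ℕ, ∃ (n : ℕ) (G : SimpleGraph (Fin n)), C n G ∧ d ^ r ≤ wcol r G)) ∧
    (∀ φ : ℕ → ℕ, (∀ i j, i ≤ j → φ i ≤ φ j) → 3 ≤ φ 1 →
      ((∀ C : (n : ℕ) → SimpleGraph (Fin n) → Prop, Monotone C →
        (∀ (r n : ℕ) (G : SimpleGraph (Fin n)), 1 ≤ r → C n G → col r G ≤ φ r) → PolyWcol C) ↔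
      ∃ b, ∀ r, φ r ≤ b)) := by
  refine ⟨fun C _ => ⟨⟨fun h => polyCol_of_uniform (uniform_of_polyExp h), polyExp_of_polyCol⟩,
    ⟨uniform_of_polyExp, fun h => polyExp_of_polyCol (polyCol_of_uniform h)⟩⟩,
    fun C _ h => wcol_le_pow h, ?_, dichotomy⟩
  intro d hd
  have h1 : PolyCol (ClsT d) := clsT_polyCol (by omega)
  refine ⟨ClsT d, clsT_monotone d, polyExp_of_polyCol h1, h1, not_poly_of_pow ?_,
    fun r n G hr hG => clsT_col (by omega) hG hr, clsT_wcol d⟩
  intro r
  obtain ⟨n, G, hG, h⟩ := clsT_wcol d r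
  exact ⟨n, G, hG, (Nat.pow_le_pow_left hd r).trans h⟩

end Pool.Agent.Results.MP_366dac_co.SharpGrowth
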